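import Pool.Agent.Lib.MP_8d8c46_lc.MC.DKern

/-! Definitions. -/

set_option autoImplicit false
set_option linter.unusedSectionVars false

open scoped Classical
open Finset

namespace Pool.Agent.Lib.MP_8d8c46_lc.MC

open Pool.Agent.Lib.MP_8d8c46_lc.EL

section

variable {V : Type} [Fintype V] {q : ℕ} [NeZero q]

/-- the endpoints of the labelled edges in `F` -/
noncomputable def vts (F : Finset (V × V × ZMod q)) : Finset V :=
  F.image (fun f => f.1) ∪ F.image (fun f => f.2.1)

/-- `F` arises by adding edges one of whose endpoints is new. -/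
inductive Forest : Finset (V × V × ZMod q) → Prop
  | empty : Forest ∅
  | add (F : Finset (V × V × ZMod q)) (l r : V) (c : ZMod q) (h : Forest F) (hne : l ≠ r)
      (hnew : l ∉ vts F ∨ r ∉ vts F) : Forest (insert (l, r, c) F)

/-- the density of the equations `x r - x l = c` -/
noncomputable def dn (σ : ℝ) (F : Finset (V × V × ZMod q)) (x : V → ZMod q) : ℝ :=
  ∏ f ∈ F, ka σ (f.2.2 - x f.2.1 + x f.1)

end

end Pool.Agent.Lib.MP_8d8c46_lc.MC
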