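import Pool.Agent.Lib.MP_8d8c46_lc.MC.DR

/-! Definitions. -/

set_option autoImplicit false
set_option linter.unusedSectionVars false

open scoped Classical
open Finset

namespace Pool.Agent.Lib.MP_8d8c46_lc.MC

open Pool.Agent.Lib.MP_8d8c46_lc.EL

open Pool.Agent.Lib.MP_8d8c46_lc.SA (BV Om)

/-- protocols of the players `E` -/
inductive Tr (E X : Type) : Type
  | out (b : Bool) : Tr E X
  | say (e : E) (f : X → Bool) (P Q : Tr E X) : Tr E X

def Tr.run {E X : Type} (x : E → X) : Tr E X → Bool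
  | .out b => b
  | .say e f P Q => if f (x e) then Q.run x else P.run x

def Tr.depth {E X : Type} : Tr E X → ℕ
  | .out _ => 0
  | .say _ _ P Q => max P.depth Q.depth + 1

section

variable {d N q : ℕ} [NeZero q]

/-- the potential of a state -/
noncomputable def pot (γ : ℝ) (v : ℕ) (R : Pl d → Finset (LP N q))
    (I : Pl d → Finset (Fin N)) : ℝ :=
  γ * ((v : ℝ) ^ 2 - pcW (VR R I)) / (N - v)

/-- what the induction proves about a protocol `T` and a state -/
def Cov (σ γ ε₁ : ℝ) (v : ℕ) (T : Tr (Pl d) (LP N q)) (R : Pl d → Finset (LP N q))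
    (I : Pl d → Finset (Fin N)) : Prop :=
  ∃ C : Finset (Om d N q), C ⊆ rc0 R I ∧
    |∑ ω ∈ C, (wY σ ω - 1)| ≤ ε₁ * C.card ∧
    |∑ ω ∈ C, (if T.run ω then wY σ ω - 1 else 0)| ≤ ε₁ * C.card ∧
    (((rc0 R I) \ C).card : ℝ) ≤ (rc R).card *
      (pot γ v R I + (∏ e, zt γ (R e) (I e)) * (2 * √2) ^ T.depth / √(γ ^ v))

end

end Pool.Agent.Lib.MP_8d8c46_lc.MC
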