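import Pool.Agent.Lib.MP_8d8c46_lc.EL.Core3

/-! Definitions. -/

set_option autoImplicit false
set_option linter.unusedSectionVars false

open scoped Classical
open Finset

namespace Pool.Agent.Lib.MP_8d8c46_lc.MC

open Pool.Agent.Lib.MP_8d8c46_lc.EL

section

variable {q : ℕ} [NeZero q]

/-- the centred kernel of an equation -/
noncomputable def th (z : ZMod q) : ℝ := (if z = 0 then (q : ℝ) else 0) - 1

/-- the kernel of an equation that is violated with probability `(1 - σ) (1 - 1 / q)` -/
noncomputable def ka (σ : ℝ) (z : ZMod q) : ℝ := 1 + σ * th z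

end

end Pool.Agent.Lib.MP_8d8c46_lc.MC
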