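import Pool.Agent.Lib.MP_8d8c46_lc.MC.DOne

/-! Definitions. -/

set_option autoImplicit false
set_option linter.unusedSectionVars false

open scoped Classical
open Finset

namespace Pool.Agent.Lib.MP_8d8c46_lc.MC

open Pool.Agent.Lib.MP_8d8c46_lc.EL

section

variable {N q : ℕ} [NeZero q] {V : Type} [Fintype V]

/-- spreadness of the permutations, with a factor 2 -/
def SprP (γ : ℝ) (R : Finset (LP N q)) (I : Finset (Fin N)) : Prop :=
  ∀ T : Finset (Fin N), Disjoint T I → ∀ a : Fin N → Fin N,
    ((R.filter (fun ω => ∀ u ∈ T, ω.1 u = a u)).card : ℝ) * (N - I.card).factorial ≤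
      2 * γ ^ T.card * (R.card * ((N - I.card - T.card).factorial : ℝ))

end

end Pool.Agent.Lib.MP_8d8c46_lc.MC
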