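import Pool.Agent.Lib.MP_8d8c46_lc.EL.Core3

/-! Definitions. -/

set_option autoImplicit false
set_option linter.unusedSectionVars false

open scoped Classical
open Finset

namespace Pool.Agent.Lib.MP_8d8c46_lc.MC

/-- labelled permutations -/
abbrev LP (N q : ℕ) : Type := Equiv.Perm (Fin N) × (Fin N → ZMod q)

section

variable {N q : ℕ} [NeZero q]

/-- all elements of `R` have the same values on `I` -/
def Agr (R : Finset (LP N q)) (I : Finset (Fin N)) : Prop :=
  ∀ ω ∈ R, ∀ ω' ∈ R, ∀ u ∈ I, ω.1 u = ω'.1 u ∧ ω.2 u = ω'.2 u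

/-- the elements of `R` with prescribed values on `T` -/
noncomputable def cyl (R : Finset (LP N q)) (T : Finset (Fin N)) (a : Fin N → Fin N)
    (c : Fin N → ZMod q) : Finset (LP N q) :=
  R.filter (fun ω => ∀ u ∈ T, ω.1 u = a u ∧ ω.2 u = c u)

/-- `R` is spread outside of `I` -/
def Spr (γ : ℝ) (R : Finset (LP N q)) (I : Finset (Fin N)) : Prop :=
  ∀ (T : Finset (Fin N)), Disjoint T I → ∀ (a : Fin N → Fin N) (c : Fin N → ZMod q),
    ((cyl R T a c).card : ℝ) * ((N - I.card).factorial * (q : ℝ) ^ T.card) ≤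
      γ ^ T.card * (R.card * ((N - I.card - T.card).factorial : ℝ))

/-- the number of labelled permutations with prescribed values on `I` -/
noncomputable def fr (N q i : ℕ) : ℝ := ((N - i).factorial : ℝ) * (q : ℝ) ^ (N - i)

/-- the potential of a part -/
noncomputable def zt (γ : ℝ) (R : Finset (LP N q)) (I : Finset (Fin N)) : ℝ :=
  √(γ ^ I.card * fr N q I.card / R.card)

end

end Pool.Agent.Lib.MP_8d8c46_lc.MC
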