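import Pool.Agent.Lib.MP_8d8c46_lc.MC.DKern
import Pool.Agent.Lib.MP_8d8c46_lc.MC.DPart

/-! Definitions. -/

set_option autoImplicit false
set_option linter.unusedSectionVars false

open scoped Classical
open Finset

namespace Pool.Agent.Lib.MP_8d8c46_lc.MC

open Pool.Agent.Lib.MP_8d8c46_lc.EL

section

variable {N q : ℕ} [NeZero q]

/-- the density of `R` if the values on `I` are given -/
noncomputable def gg (σ : ℝ) (R : Finset (LP N q)) (I : Finset (Fin N)) (xl xr : Fin N → ZMod q) :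
    ℝ :=
  (∑ ω ∈ R, ∏ u ∈ univ \ I, ka σ (ω.2 u - xr (ω.1 u) + xl u)) / R.card

/-- its part of level `t` -/
noncomputable def gt (σ : ℝ) (R : Finset (LP N q)) (I : Finset (Fin N)) (t : ℕ)
    (xl xr : Fin N → ZMod q) : ℝ :=
  σ ^ t * (∑ ω ∈ R, ∑ J ∈ powersetCard t (univ \ I),
    ∏ u ∈ J, th (ω.2 u - xr (ω.1 u) + xl u)) / R.card

/-- the terms with the values `T` of the permutation -/
noncomputable def tm (R : Finset (LP N q)) (T : Finset (Fin N × Fin N))
    (xl xr : Fin N → ZMod q) : ℝ :=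
  (∑ ω ∈ R.filter (fun ω => ∀ p ∈ T, ω.1 p.1 = p.2),
    ∏ p ∈ T, th (ω.2 p.1 - xr p.2 + xl p.1)) / R.card

/-- the possible sets of `t` values outside of `I` -/
noncomputable def TT (R : Finset (LP N q)) (I : Finset (Fin N)) (t : ℕ) :
    Finset (Finset (Fin N × Fin N)) :=
  (powersetCard t univ).filter (fun T => (∀ p ∈ T, p.1 ∉ I) ∧ ∃ ω ∈ R, ∀ p ∈ T, ω.1 p.1 = p.2)

end

section

variable {N q : ℕ} [NeZero q] {V : Type} [Fintype V]

/-- The situation of one player: `L` and `Rr` are the embeddings of its two classes, `W` the set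
of the vertices touched by given edges, `ρ` the map onto the roots. -/
structure Sit (V : Type) [Fintype V] (N q : ℕ) where
  L : Fin N → V
  Rr : Fin N → V
  W : Finset V
  ρ : V → V
  hL : Function.Injective L
  hR : Function.Injective Rr
  hLR : ∀ u v, L u ≠ Rr v
  hρ1 : ∀ v, v ∉ W → ρ v = v
  hρ2 : ∀ v ∈ W, ρ v ∈ W

/-- no edge outside of `I` inside `W` -/
def Sit.NI (S : Sit V N q) (R : Finset (LP N q)) (I : Finset (Fin N)) : Prop :=
  ∀ ω ∈ R, ∀ u, u ∉ I → ¬ (S.L u ∈ S.W ∧ S.Rr (ω.1 u) ∈ S.W)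

/-- the values on the left class -/
def Sit.xl (S : Sit V N q) (h X : V → ZMod q) (u : Fin N) : ZMod q := h (S.L u) + X (S.ρ (S.L u))

/-- the values on the right class -/
def Sit.xr (S : Sit V N q) (h X : V → ZMod q) (v : Fin N) : ZMod q := h (S.Rr v) + X (S.ρ (S.Rr v))

/-- the endpoints outside of `W` -/
noncomputable def Sit.out (S : Sit V N q) (T : Finset (Fin N × Fin N)) : Finset V :=
  (T.image (fun p => S.L p.1) ∪ T.image (fun p => S.Rr p.2)) \ S.W

end

end Pool.Agent.Lib.MP_8d8c46_lc.MC
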