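import Pool.Agent.Lib.MP_8d8c46_lc.MC.DLev
import Pool.Agent.Lib.MP_8d8c46_lc.MC.DForest
import Pool.Agent.Lib.MP_8d8c46_lc.SA.Rand

/-! Definitions. -/

set_option autoImplicit false
set_option linter.unusedSectionVars false

open scoped Classical
open Finset

namespace Pool.Agent.Lib.MP_8d8c46_lc.MC

open Pool.Agent.Lib.MP_8d8c46_lc.EL

open Pool.Agent.Lib.MP_8d8c46_lc.SA (BV Om)

/-- the players: pairs of classes -/
abbrev Pl (d : ℕ) : Type := Fin d × Fin d

section

variable {d N q : ℕ} [NeZero q]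

/-- the density of the planted distribution -/
noncomputable def wY (σ : ℝ) (ω : Om d N q) : ℝ :=
  avg (fun x : BV d N → ZMod q => ∏ e : Pl d, ∏ u : Fin N,
    ka σ ((ω e).2 u - x (true, e.2, (ω e).1 u) + x (false, e.1, u)))

/-- the vertices touched by the known edges -/
noncomputable def VR (R : Pl d → Finset (LP N q)) (I : Pl d → Finset (Fin N)) :
    Finset (BV d N) :=
  univ.filter (fun x => (x.1 = false ∧ ∃ b, x.2.2 ∈ I (x.2.1, b)) ∨
    (x.1 = true ∧ ∃ a, ∃ ω ∈ R (a, x.2.1), ∃ u ∈ I (a, x.2.1), ω.1 u = x.2.2))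

/-- no unknown edge inside `W` -/
def NIs (W : Finset (BV d N)) (I : Pl d → Finset (Fin N)) (ω : Om d N q) : Prop :=
  ∀ (e : Pl d) (u : Fin N), u ∉ I e →
    ¬ ((false, e.1, u) ∈ W ∧ (true, e.2, (ω e).1 u) ∈ W)

/-- the rectangle -/
noncomputable def rc (R : Pl d → Finset (LP N q)) : Finset (Om d N q) := Fintype.piFinset R

/-- its part without unknown edges inside the set of the touched vertices -/
noncomputable def rc0 (R : Pl d → Finset (LP N q)) (I : Pl d → Finset (Fin N)) :
    Finset (Om d N q) := (rc R).filter (NIs (VR R I) I)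

/-- the same for one player -/
noncomputable def R0 (R : Pl d → Finset (LP N q)) (I : Pl d → Finset (Fin N)) (e : Pl d) :
    Finset (LP N q) :=
  (R e).filter (fun ω => ∀ u, u ∉ I e →
    ¬ ((false, e.1, u) ∈ VR R I ∧ (true, e.2, ω.1 u) ∈ VR R I))

/-- the known edges with their labels -/
noncomputable def EF (ω : Om d N q) (I : Pl d → Finset (Fin N)) :
    Finset (BV d N × BV d N × ZMod q) :=
  univ.biUnion (fun e : Pl d => (I e).image (fun u =>
    (((false, e.1, u) : BV d N), ((true, e.2, (ω e).1 u) : BV d N), (ω e).2 u)))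

/-- the states of the analysis -/
structure St (γ : ℝ) (v : ℕ) (R : Pl d → Finset (LP N q)) (I : Pl d → Finset (Fin N)) :
    Prop where
  agr : ∀ e, Agr (R e) (I e)
  spr : ∀ e, Spr γ (R e) (I e)
  ne : ∀ e, (R e).Nonempty
  card : ∑ e, (I e).card ≤ v
  forest : ∀ ω ∈ rc0 R I, Forest (EF ω I)

/-- the number of left vertices times the number of right vertices of `W` -/
noncomputable def pcW (W : Finset (BV d N)) : ℕ :=
  (W.filter (fun x => x.1 = false)).card * (W.filter (fun x => x.1 = true)).card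

end

end Pool.Agent.Lib.MP_8d8c46_lc.MC
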