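import Pool.Agent.Lib.MP_8d8c46_lc.Problem

/-!
Communication protocols with unlimited interaction for graphs whose edges are distributed
among several players.
-/

set_option autoImplicit false

open scoped Classical

namespace Pool.Agent.Lib.MP_8d8c46_lc.MC

/-- Deterministic communication protocols of `k` players, each of which holds an element of `X`:
stop with an answer, or player `i` announces one bit `f x`, where `x` is what it holds, and the
protocol continues depending on this bit. -/
inductive Protocol (k : ℕ) (X : Type) : Type
  | answer (b : Bool) : Protocol k X
  | say (i : Fin k) (f : X → Bool) (next0 next1 : Protocol k X) : Protocol k X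

/-- The answer of the protocol if player `i` holds `x i`. -/
def Protocol.run {k : ℕ} {X : Type} (x : Fin k → X) : Protocol k X → Bool
  | .answer b => b
  | .say i f P Q => if f (x i) then Q.run x else P.run x

/-- The largest number of bits that may be announced. -/
def Protocol.cost {k : ℕ} {X : Type} : Protocol k X → ℕ
  | .answer _ => 0
  | .say _ _ P Q => max P.cost Q.cost + 1

section
variable {V : Type} [Fintype V] {k : ℕ}

/-- What player `i` holds if the graph is `G`: the edges of `G` in the class `i` of pairs of
vertices. -/
def view (col : Sym2 V → Fin k) (G : SimpleGraph V) (i : Fin k) : Set (Sym2 V) :=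
  {e | e ∈ G.edgeSet ∧ col e = i}

/-- Randomized protocols (with common random choices) are probability distributions on
deterministic ones: the probability of the answer `b` on the graph `G`. -/
noncomputable def answerProb (col : Sym2 V → Fin k) (A : PMF (Protocol k (Set (Sym2 V))))
    (G : SimpleGraph V) (b : Bool) : ENNReal :=
  (A.map (fun P => P.run (view col G))) b

/-- The protocol accepts every `d`-regular graph on `V` with a set of `δ|V|` vertices of expansion
at most `ε`, and rejects every `d`-regular No instance of `SSE(η, δ)` on `V`, with probability at
least `2/3`. -/
def Separates (ε η δ : ℚ) (d : ℕ) (col : Sym2 V → Fin k) (A : PMF (Protocol k (Set (Sym2 V)))) :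
    Prop :=
  (∀ G : SimpleGraph V, Regular G d → SSEYes ε δ G → 2 / 3 ≤ answerProb col A G true) ∧
  (∀ G : SimpleGraph V, Regular G d → SSENo η δ G → 2 / 3 ≤ answerProb col A G false)

end

end Pool.Agent.Lib.MP_8d8c46_lc.MC
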