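import Pool.Agent.Lib.MP_8d8c46_lc.MC.Defs

/-!
Streaming algorithms that read the edges of a graph several times.
-/

set_option autoImplicit false

open scoped Classical

namespace Pool.Agent.Lib.MP_8d8c46_lc.MC

/-- Deterministic algorithms with a memory of `s` bits which read a sequence of edges several
times: the initial memory, the new memory when an edge is read (it may depend on the number of the
pass), and the answer. -/
structure Streaming (V : Type) (s : ℕ) : Type where
  init : Fin s → Bool
  step : ℕ → Sym2 V → (Fin s → Bool) → Fin s → Bool
  out : (Fin s → Bool) → Bool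

/-- The answer after `p` passes over the sequence `l`. -/
def Streaming.run {V : Type} {s : ℕ} (B : Streaming V s) (p : ℕ) (l : List (Sym2 V)) : Bool :=
  B.out ((List.range p).foldl (fun m j => l.foldl (fun m e => B.step j e m) m) B.init)

section
variable {V : Type} [Fintype V] {k : ℕ}

/-- A randomized streaming algorithm is a probability distribution on deterministic ones. With `p`
passes, for every order `l` of the edges, it accepts every `d`-regular graph on `V` with a set of
`δ|V|` vertices of expansion at most `ε`, and rejects every `d`-regular No instance of `SSE(η, δ)`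
on `V`, with probability at least `2/3`. -/
def StreamSeparates (ε η δ : ℚ) (d p : ℕ) {s : ℕ} (B : PMF (Streaming V s)) : Prop :=
  (∀ (G : SimpleGraph V) (l : List (Sym2 V)), l.Nodup → (∀ e, e ∈ l ↔ e ∈ G.edgeSet) →
    Regular G d → SSEYes ε δ G → 2 / 3 ≤ (B.map fun P => P.run p l) true) ∧
  (∀ (G : SimpleGraph V) (l : List (Sym2 V)), l.Nodup → (∀ e, e ∈ l ↔ e ∈ G.edgeSet) →
    Regular G d → SSENo η δ G → 2 / 3 ≤ (B.map fun P => P.run p l) false)

end

end Pool.Agent.Lib.MP_8d8c46_lc.MC
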