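import Pool.Agent.Lib.MP_8d8c46_lc.MC.StreamDefs

/-!
The simulation of streaming algorithms by communication protocols.
-/

set_option autoImplicit false

open scoped Classical

namespace Pool.Agent.Lib.MP_8d8c46_lc.MC

section
variable {V : Type} [Fintype V] {k : ℕ}

/-- Player `i` announces the `s` bits of `g x`. -/
def sayBits {X : Type} (i : Fin k) :
    (s : ℕ) → (X → Fin s → Bool) → ((Fin s → Bool) → Protocol k X) → Protocol k X
  | 0, _, K => K Fin.elim0
  | s + 1, g, K => .say i (fun x => g x 0)
      (sayBits i s (fun x j => g x j.succ) fun r => K (Fin.cons false r))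
      (sayBits i s (fun x j => g x j.succ) fun r => K (Fin.cons true r))

theorem run_sayBits {X : Type} (x : Fin k → X) (i : Fin k) (s : ℕ) (g : X → Fin s → Bool)
    (K : (Fin s → Bool) → Protocol k X) :
    (sayBits i s g K).run x = (K (g (x i))).run x := by
  induction s with
  | zero =>
    have h : g (x i) = Fin.elim0 := by
      funext j
      exact j.elim0
    rw [sayBits, h]
  | succ s ih =>
    rw [sayBits, Protocol.run]
    cases h : g (x i) 0
    · rw [if_neg (by simp), ih]
      congr 2
      rw [← h]
      exact Fin.cons_self_tail (g (x i))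
    · rw [if_pos rfl, ih]
      congr 2
      rw [← h]
      exact Fin.cons_self_tail (g (x i))

theorem cost_sayBits {X : Type} (i : Fin k) (s : ℕ) (g : X → Fin s → Bool)
    (K : (Fin s → Bool) → Protocol k X) (c : ℕ) (hK : ∀ r, (K r).cost ≤ c) :
    (sayBits i s g K).cost ≤ c + s := by
  induction s with
  | zero => exact hK _
  | succ s ih =>
    rw [sayBits, Protocol.cost, ← add_assoc]
    refine Nat.add_le_add_right (max_le ?_ ?_) 1
    · exact ih _ _ fun r => hK _
    · exact ih _ _ fun r => hK _

/-- The elements of a set of pairs of vertices in some order. -/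
noncomputable def enum (X : Set (Sym2 V)) : List (Sym2 V) := X.toFinite.toFinset.toList

theorem mem_enum (X : Set (Sym2 V)) (e : Sym2 V) : e ∈ enum X ↔ e ∈ X := by
  rw [enum, Finset.mem_toList]
  exact Set.Finite.mem_toFinset _

theorem nodup_enum (X : Set (Sym2 V)) : (enum X).Nodup := Finset.nodup_toList _

/-- The simulation: in the turn `(j, i)` player `i` reads its edges in the pass `j` and announces
the new memory. -/
noncomputable def sim {s : ℕ} (B : Streaming V s) :
    List (ℕ × Fin k) → (Fin s → Bool) → Protocol k (Set (Sym2 V))
  | [], m => .answer (B.out m)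
  | (j, i) :: t, m => sayBits i s (fun X => (enum X).foldl (fun m e => B.step j e m) m)
      fun m' => sim B t m'

theorem run_sim {s : ℕ} (B : Streaming V s) (x : Fin k → Set (Sym2 V)) (t : List (ℕ × Fin k))
    (m : Fin s → Bool) :
    (sim B t m).run x =
      B.out (t.foldl (fun m a => (enum (x a.2)).foldl (fun m e => B.step a.1 e m) m) m) := by
  induction t generalizing m with
  | nil => rfl
  | cons a t ih =>
    obtain ⟨j, i⟩ := a
    rw [sim, run_sayBits, ih, List.foldl_cons]

theorem cost_sim {s : ℕ} (B : Streaming V s) (t : List (ℕ × Fin k)) (m : Fin s → Bool) :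
    (sim B t m).cost ≤ t.length * s := by
  induction t generalizing m with
  | nil => simp [sim, Protocol.cost]
  | cons a t ih =>
    obtain ⟨j, i⟩ := a
    rw [sim, List.length_cons, Nat.succ_mul]
    exact cost_sayBits _ _ _ _ _ fun r => ih r

/-- the turns of the players in `p` passes -/
def turns (k p : ℕ) : List (ℕ × Fin k) :=
  (List.range p).flatMap fun j => (List.finRange k).map fun i => (j, i)

theorem length_turns (k p : ℕ) : (turns k p).length = p * k := by
  simp [turns, List.length_flatMap]

/-- the edges in the order of the players -/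
noncomputable def order (x : Fin k → Set (Sym2 V)) : List (Sym2 V) :=
  (List.finRange k).flatMap fun i => enum (x i)

theorem run_sim_turns {s : ℕ} (B : Streaming V s) (x : Fin k → Set (Sym2 V)) (p : ℕ) :
    (sim B (turns k p) B.init).run x = B.run p (order x) := by
  rw [run_sim, Streaming.run, turns, order, List.foldl_flatMap]
  congr 2
  funext m j
  rw [List.foldl_map, List.foldl_flatMap]

theorem order_view (col : Sym2 V → Fin k) (G : SimpleGraph V) :
    (order (view col G)).Nodup ∧ ∀ e, e ∈ order (view col G) ↔ e ∈ G.edgeSet := by
  constructor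
  · refine List.nodup_flatMap.2 ⟨fun i _ => nodup_enum _, ?_⟩
    refine (List.nodup_finRange k).imp ?_
    intro i j hij e hi hj
    rw [mem_enum] at hi hj
    exact hij (hi.2.symm.trans hj.2)
  · intro e
    simp only [order, List.mem_flatMap, List.mem_finRange, true_and, mem_enum]
    exact ⟨fun ⟨_, h⟩ => h.1, fun h => ⟨col e, h, rfl⟩⟩

/-- A streaming algorithm with `p` passes and `s` bits of memory gives a protocol with `p k s`
bits. -/
theorem separates_of_streaming {ε η δ : ℚ} {d p s : ℕ} {B : PMF (Streaming V s)}
    (hB : StreamSeparates ε η δ d p B) (col : Sym2 V → Fin k) :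
    (∀ P ∈ (B.map fun Q => sim (k := k) Q (turns k p) Q.init).support, P.cost ≤ p * k * s) ∧
      Separates ε η δ d col (B.map fun Q => sim (k := k) Q (turns k p) Q.init) := by
  have key : ∀ (G : SimpleGraph V) (b : Bool),
      answerProb col (B.map fun Q => sim (k := k) Q (turns k p) Q.init) G b =
        (B.map fun P => P.run p (order (view col G))) b := by
    intro G b
    rw [answerProb, PMF.map_comp]
    congr 2
    funext Q
    exact run_sim_turns Q _ p
  refine ⟨?_, ?_, ?_⟩
  · intro P hP
    rw [PMF.support_map] at hP
    obtain ⟨Q, -, rfl⟩ := hP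
    refine (cost_sim Q _ _).trans_eq ?_
    rw [length_turns]
  · intro G hG hY
    rw [key]
    exact hB.1 G _ (order_view col G).1 (order_view col G).2 hG hY
  · intro G hG hN
    rw [key]
    exact hB.2 G _ (order_view col G).1 (order_view col G).2 hG hN

end

end Pool.Agent.Lib.MP_8d8c46_lc.MC
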