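import Mathlib

/-! T39 : R15 -/

set_option autoImplicit false
set_option linter.unusedSectionVars false

open scoped Classical
open Finset

namespace Pool.Agent.Lib.MP_8d8c46_lc.MC

private lemma t39_pow (m : ℕ) (x : ℝ) (h0 : 0 ≤ x) (h1 : x ≤ 1) : (1 + x) ^ m ≤ 1 + (2 ^ m - 1) * x := by
  induction m with
  | zero => simp
  | succ m ih =>
    have h2 : (1 : ℝ) ≤ 2 ^ m := one_le_pow₀ (by norm_num)
    calc (1 + x) ^ (m + 1) = (1 + x) ^ m * (1 + x) := pow_succ _ _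
      _ ≤ (1 + (2 ^ m - 1) * x) * (1 + x) := by
          apply mul_le_mul_of_nonneg_right ih; linarith
      _ ≤ 1 + (2 ^ (m + 1) - 1) * x := by
          rw [pow_succ]
          have h3 : (2 ^ m - 1) * x * x ≤ (2 ^ m - 1) * x := by
            have h4 : 0 ≤ (2 ^ m - 1) * x := mul_nonneg (by linarith) h0
            nlinarith
          nlinarith

private lemma t39_log (z : ℝ) (hz : 0 ≤ z) : Real.log (z ^ 4 + 1) ≤ 4 * z := by
  have h1 : z ^ 4 + 1 ≤ (Real.exp z) ^ 4 := by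
    have h2 : z + 1 ≤ Real.exp z := Real.add_one_le_exp z
    calc z ^ 4 + 1 ≤ (z + 1) ^ 4 := by
          have : 0 ≤ z ^ 3 := by positivity
          have : 0 ≤ z ^ 2 := by positivity
          nlinarith
      _ ≤ (Real.exp z) ^ 4 := pow_le_pow_left₀ (by linarith) h2 _
  calc Real.log (z ^ 4 + 1) ≤ Real.log ((Real.exp z) ^ 4) := Real.log_le_log (by positivity) h1
    _ = 4 * z := by rw [Real.log_pow, Real.log_exp]; norm_num

private lemma t39_e1 (κ z T : ℝ) (hκ : 0 < κ) (hz : 1 ≤ z) (h : (10 + |T|) / (2 * κ) ≤ z) :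
    2 * (4 * z) + (-(2 * κ * z ^ 2) + 2) ≤ T := by
  rw [div_le_iff₀ (by positivity)] at h
  have h4 := neg_abs_le T
  have h5 : 0 ≤ |T| := abs_nonneg _
  have h6 : (10 + |T|) * z ≤ z * (2 * κ) * z := mul_le_mul_of_nonneg_right h (by linarith)
  have h7 : |T| ≤ |T| * z := le_mul_of_one_le_right h5 hz
  have h8 : z * (2 * κ) * z = 2 * κ * z ^ 2 := by ring
  have h9 : (10 + |T|) * z = 10 * z + |T| * z := by ring
  linarith

private lemma t39_e2 (κ z T s D : ℝ) (hz : 1 ≤ z) (hs : 0 < s)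
    (h : 128 * (8 * κ + 8 + D + s + |T|) / s ≤ z) :
    (8 * κ + 8) * z ^ 3 + (s - s * z ^ 4 / 128) + D * z ^ 3 ≤ T := by
  rw [div_le_iff₀ hs] at h
  have h5 := neg_abs_le T
  have h6 : 0 ≤ |T| := abs_nonneg _
  have h7 : 1 ≤ z ^ 3 := one_le_pow₀ hz
  have h8 : 128 * (8 * κ + 8 + D + s + |T|) * z ^ 3 ≤ z * s * z ^ 3 :=
    mul_le_mul_of_nonneg_right h (by linarith)
  have h9 : z * s * z ^ 3 = s * z ^ 4 := by ring
  rw [h9] at h8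
  have h10 : s ≤ s * z ^ 3 := le_mul_of_one_le_right hs.le h7
  have h11 : |T| ≤ |T| * z ^ 3 := le_mul_of_one_le_right h6 h7
  have h12 : 128 * (8 * κ + 8 + D + s + |T|) * z ^ 3 =
      128 * ((8 * κ + 8) * z ^ 3 + D * z ^ 3 + s * z ^ 3 + |T| * z ^ 3) := by ring
  rw [h12] at h8
  linarith

private lemma t39_Nexp (z : ℝ) (N k : ℕ) (hz0 : 0 ≤ z) (hz4 : z ^ 4 = N) :
    ((N : ℝ) + 1) ^ k ≤ Real.exp (k * (4 * z)) := by
  have h0 : (0 : ℝ) < (N : ℝ) + 1 := by positivity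
  rw [← Real.log_le_iff_le_exp (pow_pos h0 k), Real.log_pow]
  have h1 := t39_log z hz0
  rw [hz4] at h1
  exact mul_le_mul_of_nonneg_left h1 (Nat.cast_nonneg _)

private lemma t39_T1 (κ z τ : ℝ) (N v : ℕ) (hκ : 0 < κ) (hz1 : 1 ≤ z) (hz4 : z ^ 4 = N)
    (hτpos : 0 < τ) (hz3 : (10 + |Real.log τ|) / (2 * κ) ≤ z) (hvge : κ * z ^ 2 - 1 ≤ v) :
    ((N : ℝ) + 1) ^ 2 * (1 / 2) ^ (4 * v) ≤ τ := by
  have hlog2a : (1 : ℝ) / 2 ≤ Real.log 2 := by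
    have := Real.log_two_gt_d9; linarith
  have h2 : ((1 : ℝ) / 2) ^ (4 * v) ≤ Real.exp (-(2 * κ * z ^ 2) + 2) := by
    rw [← Real.log_le_iff_le_exp (by positivity), Real.log_pow]
    have h3 : Real.log (1 / 2 : ℝ) = - Real.log 2 := by
      rw [one_div, Real.log_inv]
    rw [h3]
    push_cast
    have h4 : (4 * (v : ℝ)) * (1 / 2) ≤ (4 * v) * Real.log 2 :=
      mul_le_mul_of_nonneg_left hlog2a (by positivity)
    linarith
  have h5 := t39_Nexp z N 2 (by linarith) hz4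
  have h6 := t39_e1 κ z (Real.log τ) hκ hz1 hz3
  calc ((N : ℝ) + 1) ^ 2 * (1 / 2) ^ (4 * v)
      ≤ Real.exp ((2 : ℕ) * (4 * z)) * Real.exp (-(2 * κ * z ^ 2) + 2) :=
        mul_le_mul h5 h2 (by positivity) (Real.exp_nonneg _)
    _ = Real.exp ((2 : ℕ) * (4 * z) + (-(2 * κ * z ^ 2) + 2)) := (Real.exp_add _ _).symm
    _ ≤ Real.exp (Real.log τ) := by
        apply Real.exp_le_exp.2
        push_cast
        exact h6
    _ = τ := Real.exp_log hτpos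

private lemma t39_T2 (κ z τ s σ : ℝ) (N v A m : ℕ) (hκ : 0 < κ) (hz1 : 1 ≤ z) (hz4 : z ^ 4 = N)
    (hτpos : 0 < τ) (h0 : 0 < σ) (hs : s = -Real.log σ) (hspos : 0 < s)
    (hz5 : 128 * (8 * κ + 8 + A * (2 * m + 1) * κ + s + |Real.log τ|) / s ≤ z)
    (hvle : (v : ℝ) ≤ κ * z ^ 2) :
    ((N : ℝ) + 1) ^ (2 * v + 2) * σ ^ (N / 128) * (2 : ℝ) ^ (A * v * (2 * m + 1)) ≤ τ := by
  have hz0 : 0 ≤ z := by linarith
  have hlog2b : Real.log 2 ≤ 1 := by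
    have := Real.log_two_lt_d9; linarith
  have h2 : ((N : ℝ) + 1) ^ (2 * v + 2) ≤ Real.exp ((8 * κ + 8) * z ^ 3) := by
    refine (t39_Nexp z N _ hz0 hz4).trans ?_
    apply Real.exp_le_exp.2
    push_cast
    have h3 : (2 * (v : ℝ) + 2) * (4 * z) ≤ (2 * (κ * z ^ 2) + 2) * (4 * z) := by
      apply mul_le_mul_of_nonneg_right _ (by positivity)
      linarith
    have h4 : z ≤ z ^ 3 := by
      calc z = z * 1 := (mul_one z).symm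
        _ ≤ z * z ^ 2 := mul_le_mul_of_nonneg_left (one_le_pow₀ hz1) hz0
        _ = z ^ 3 := by ring
    have h5 : (2 * (κ * z ^ 2) + 2) * (4 * z) = 8 * κ * z ^ 3 + 8 * z := by ring
    have h6 : (8 * κ + 8) * z ^ 3 = 8 * κ * z ^ 3 + 8 * z ^ 3 := by ring
    rw [h6]
    rw [h5] at h3
    linarith
  have h3 : σ ^ (N / 128) ≤ Real.exp (s - s * z ^ 4 / 128) := by
    rw [← Real.log_le_iff_le_exp (by positivity), Real.log_pow]
    have h4 : Real.log σ = -s := by rw [hs]; ring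
    rw [h4]
    have h5 : (N : ℝ) / 128 - 1 ≤ ((N / 128 : ℕ) : ℝ) := by
      have h6 : N < 128 * (N / 128 + 1) := Nat.lt_mul_div_succ N (by norm_num)
      have h7 : (N : ℝ) < 128 * (((N / 128 : ℕ) : ℝ) + 1) := by exact_mod_cast h6
      linarith
    rw [hz4]
    have h8 : s * ((N : ℝ) / 128 - 1) ≤ s * ((N / 128 : ℕ) : ℝ) :=
      mul_le_mul_of_nonneg_left h5 hspos.le
    have h9 : s * ((N : ℝ) / 128 - 1) = s * N / 128 - s := by ring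
    rw [h9] at h8
    linarith
  have h4 : (2 : ℝ) ^ (A * v * (2 * m + 1)) ≤ Real.exp (A * (2 * m + 1) * κ * z ^ 3) := by
    rw [← Real.log_le_iff_le_exp (by positivity), Real.log_pow]
    push_cast
    have h5 : (v : ℝ) ≤ κ * z ^ 3 := by
      refine hvle.trans ?_
      apply mul_le_mul_of_nonneg_left _ hκ.le
      calc z ^ 2 = z ^ 2 * 1 := (mul_one _).symm
        _ ≤ z ^ 2 * z := mul_le_mul_of_nonneg_left hz1 (by positivity)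
        _ = z ^ 3 := by ring
    calc (A : ℝ) * v * (2 * m + 1) * Real.log 2 ≤ A * v * (2 * m + 1) * 1 := by
          apply mul_le_mul_of_nonneg_left hlog2b; positivity
      _ = A * (2 * m + 1) * v := by ring
      _ ≤ A * (2 * m + 1) * (κ * z ^ 3) := by
          apply mul_le_mul_of_nonneg_left h5; positivity
      _ = A * (2 * m + 1) * κ * z ^ 3 := by ring
  calc ((N : ℝ) + 1) ^ (2 * v + 2) * σ ^ (N / 128) * (2 : ℝ) ^ (A * v * (2 * m + 1))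
      ≤ Real.exp ((8 * κ + 8) * z ^ 3) * Real.exp (s - s * z ^ 4 / 128) *
        Real.exp (A * (2 * m + 1) * κ * z ^ 3) := by
        apply mul_le_mul (mul_le_mul h2 h3 (by positivity) (by positivity)) h4 (by positivity)
          (by positivity)
    _ = Real.exp ((8 * κ + 8) * z ^ 3 + (s - s * z ^ 4 / 128) +
        A * (2 * m + 1) * κ * z ^ 3) := by rw [Real.exp_add, Real.exp_add]
    _ ≤ Real.exp (Real.log τ) := by
        apply Real.exp_le_exp.2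
        exact t39_e2 κ z (Real.log τ) s (A * (2 * m + 1) * κ) hz1 hspos hz5
    _ = τ := Real.exp_log hτpos

private lemma t39_Y (γ σ τ : ℝ) (N v A B m : ℕ) (hγ : 1 < γ) (h0 : 0 < σ)
    (hB : B = A * (2 * m + 1) + 4) (hgv : 2 * γ ^ v ≤ (2 : ℝ) ^ (A * v))
    (hT1 : ((N : ℝ) + 1) ^ 2 * (1 / 2) ^ (4 * v) ≤ τ)
    (hT2 : ((N : ℝ) + 1) ^ (2 * v + 2) * σ ^ (N / 128) * (2 : ℝ) ^ (A * v * (2 * m + 1)) ≤ τ) :
    (2 * γ ^ v) ^ (2 * m) * ((N + 1 : ℝ) ^ 2 * (2 * (1 / 2) ^ (B * v) + 2 * σ ^ (N / 128) *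
          (N + 1 : ℝ) ^ (2 * v)) * (2 * γ ^ v)) ≤ 4 * τ := by
  have hγ0 : 0 < γ := by linarith
  have hgm : (2 * γ ^ v) ^ (2 * m + 1) ≤ (2 : ℝ) ^ (A * v * (2 * m + 1)) := by
    rw [pow_mul]
    exact pow_le_pow_left₀ (by positivity) hgv _
  have h2 : (2 * γ ^ v) ^ (2 * m) * ((N + 1 : ℝ) ^ 2 * (2 * (1 / 2) ^ (B * v) + 2 * σ ^ (N / 128) *
          (N + 1 : ℝ) ^ (2 * v)) * (2 * γ ^ v)) = (2 * γ ^ v) ^ (2 * m + 1) *
      (2 * (((N : ℝ) + 1) ^ 2 * (1 / 2) ^ (B * v)) +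
        2 * (((N : ℝ) + 1) ^ (2 * v + 2) * σ ^ (N / 128))) := by
    rw [pow_succ, pow_add]; ring
  rw [h2]
  calc (2 * γ ^ v) ^ (2 * m + 1) * (2 * (((N : ℝ) + 1) ^ 2 * (1 / 2) ^ (B * v)) +
        2 * (((N : ℝ) + 1) ^ (2 * v + 2) * σ ^ (N / 128)))
      ≤ (2 : ℝ) ^ (A * v * (2 * m + 1)) * (2 * (((N : ℝ) + 1) ^ 2 * (1 / 2) ^ (B * v)) +
        2 * (((N : ℝ) + 1) ^ (2 * v + 2) * σ ^ (N / 128))) := by
        apply mul_le_mul_of_nonneg_right hgm; positivity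
    _ = 2 * (((N : ℝ) + 1) ^ 2 * ((2 : ℝ) ^ (A * v * (2 * m + 1)) * (1 / 2) ^ (B * v))) +
        2 * (((N : ℝ) + 1) ^ (2 * v + 2) * σ ^ (N / 128) * (2 : ℝ) ^ (A * v * (2 * m + 1))) := by
        ring
    _ = 2 * (((N : ℝ) + 1) ^ 2 * (1 / 2) ^ (4 * v)) +
        2 * (((N : ℝ) + 1) ^ (2 * v + 2) * σ ^ (N / 128) * (2 : ℝ) ^ (A * v * (2 * m + 1))) := by
        have h3 : B * v = A * v * (2 * m + 1) + 4 * v := by rw [hB]; ring
        have h4 : (2 : ℝ) ^ (A * v * (2 * m + 1)) * (1 / 2) ^ (B * v) = (1 / 2) ^ (4 * v) := by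
          rw [h3, pow_add, ← mul_assoc, ← mul_pow]
          norm_num
        rw [h4]
    _ ≤ 2 * τ + 2 * τ := by linarith
    _ = 4 * τ := by ring

private lemma t39_low (κ W β K1 : ℝ) (N v A B t q : ℕ) (hK1 : K1 = 4 * A + B + 3)
    (hq : 1 ≤ q) (hβ : β = κ * W) (hW : W = √(2048 * q * K1)) (hN : 0 < (N : ℝ))
    (hv1 : (1 : ℝ) ≤ v) (hvsq : (v : ℝ) ^ 2 ≤ κ ^ 2 * N) (hNv : (N : ℝ) / 2 ≤ N - v)
    (ht1 : 1 ≤ t) (htL : (t : ℝ) ≤ B * v) :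
    4 * (256 * q * ((A * v / t + 1 : ℕ) : ℝ) * (t + 2 * v + 1) / ((N : ℝ) - v)) ^ t ≤
            (β ^ 2) ^ t := by
  have ht1' : (1 : ℝ) ≤ t := by exact_mod_cast ht1
  have hq' : (1 : ℝ) ≤ q := by exact_mod_cast hq
  have hA0 : (0 : ℝ) ≤ A := Nat.cast_nonneg _
  have hB0 : (0 : ℝ) ≤ B := Nat.cast_nonneg _
  have hK1pos : 0 < K1 := by rw [hK1]; positivity
  have hr : (((A * v / t + 1 : ℕ)) : ℝ) ≤ A * v / t + 1 := by
    push_cast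
    have := @Nat.cast_div_le ℝ _ _ _ (A * v) t
    push_cast at this
    linarith
  have hrt : (((A * v / t + 1 : ℕ)) : ℝ) * (t + 2 * v + 1) ≤ K1 * v ^ 2 := by
    calc (((A * v / t + 1 : ℕ)) : ℝ) * (t + 2 * v + 1)
        ≤ (A * v / t + 1) * (t + 2 * v + 1) := by
          apply mul_le_mul_of_nonneg_right hr; positivity
      _ = A * v + (A * v / t) * (2 * v + 1) + (t + 2 * v + 1) := by
          have : (A : ℝ) * v / t * t = A * v := by field_simp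
          linear_combination this
      _ ≤ A * v + (A * v) * (2 * v + 1) + (B * v + 2 * v + 1) := by
          have h2 : (A : ℝ) * v / t ≤ A * v := div_le_self (by positivity) ht1'
          have h3 : (A : ℝ) * v / t * (2 * v + 1) ≤ (A * v) * (2 * v + 1) := by
            apply mul_le_mul_of_nonneg_right h2; positivity
          linarith
      _ ≤ K1 * v ^ 2 := by
          rw [hK1]
          have h2 : (v : ℝ) ≤ v ^ 2 := by nlinarith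
          have h5 : (A : ℝ) * v ≤ A * v ^ 2 := mul_le_mul_of_nonneg_left h2 hA0
          have h6 : (B : ℝ) * v ≤ B * v ^ 2 := mul_le_mul_of_nonneg_left h2 hB0
          have h7 : (1 : ℝ) ≤ v ^ 2 := by linarith
          have h8 : (A * v) * (2 * (v : ℝ) + 1) = 2 * (A * v ^ 2) + A * v := by ring
          have h9 : (4 * (A : ℝ) + B + 3) * v ^ 2 = 4 * (A * v ^ 2) + B * v ^ 2 + 3 * v ^ 2 := by
            ring
          rw [h8, h9]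
          linarith
  set x : ℝ := 256 * q * ((A * v / t + 1 : ℕ) : ℝ) * (t + 2 * v + 1) / ((N : ℝ) - v) with hx
  have hx0 : 0 ≤ x := by
    rw [hx]
    apply div_nonneg (by positivity)
    linarith
  have hxβ : 4 * x ≤ β ^ 2 := by
    have h2 : x ≤ 256 * q * (K1 * v ^ 2) / (N / 2) := by
      rw [hx]
      apply div_le_div₀ (by positivity) _ (by positivity) hNv
      calc 256 * (q : ℝ) * ((A * v / t + 1 : ℕ) : ℝ) * (t + 2 * v + 1)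
          = 256 * q * ((((A * v / t + 1 : ℕ)) : ℝ) * (t + 2 * v + 1)) := by ring
        _ ≤ 256 * q * (K1 * v ^ 2) := by
            apply mul_le_mul_of_nonneg_left hrt; positivity
    have h3 : 256 * q * (K1 * v ^ 2) / (N / 2) ≤ 512 * q * K1 * κ ^ 2 := by
      rw [div_le_iff₀ (by positivity)]
      calc 256 * (q : ℝ) * (K1 * v ^ 2) = (256 * q * K1) * v ^ 2 := by ring
        _ ≤ (256 * q * K1) * (κ ^ 2 * N) := by
            apply mul_le_mul_of_nonneg_left hvsq; positivity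
        _ = 512 * q * K1 * κ ^ 2 * (N / 2) := by ring
    have h4 : β ^ 2 = κ ^ 2 * (2048 * q * K1) := by
      rw [hβ, mul_pow, hW, Real.sq_sqrt (by positivity)]
    rw [h4]
    linarith
  calc 4 * x ^ t ≤ 4 ^ t * x ^ t := by
        apply mul_le_mul_of_nonneg_right _ (by positivity)
        calc (4 : ℝ) = 4 ^ 1 := by norm_num
          _ ≤ 4 ^ t := pow_le_pow_right₀ (by norm_num) ht1
    _ = (4 * x) ^ t := by rw [mul_pow]
    _ ≤ (β ^ 2) ^ t := pow_le_pow_left₀ (by positivity) hxβ _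

private lemma t39_fin (γ β Y ε₁ τ : ℝ) (m q v : ℕ) (hm : 1 ≤ m) (hε : 0 < ε₁) (hγ : 0 < γ)
    (hY : 0 ≤ Y) (hτ : τ = ε₁ ^ 2 / (16 * m ^ 2 * 4 ^ m))
    (hβ0 : 0 ≤ 16 * (m : ℝ) * q * β) (hβ1 : 16 * (m : ℝ) * q * β ≤ 1)
    (hβ2 : 16 * (m : ℝ) * q * β ≤ ε₁ / (2 * 2 ^ m))
    (hYmain : (2 * γ ^ v) ^ (2 * m) * Y ≤ 4 * τ) :
    ((1 + 16 * (m : ℝ) * (q : ℝ) * β) ^ m - 1) +
          m * (2 * γ ^ v) ^ m * (1 + 16 * (m : ℝ) * (q : ℝ) * β) ^ m * √Y ≤ ε₁ := by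
  have hm' : (1 : ℝ) ≤ m := by exact_mod_cast hm
  have h2 : (1 + 16 * (m : ℝ) * (q : ℝ) * β) ^ m - 1 ≤ ε₁ / 2 := by
    have h3 := t39_pow m (16 * (m : ℝ) * (q : ℝ) * β) hβ0 hβ1
    have h4 : ((2 : ℝ) ^ m - 1) * (16 * (m : ℝ) * (q : ℝ) * β) ≤ 2 ^ m * (ε₁ / (2 * 2 ^ m)) := by
      apply mul_le_mul _ hβ2 hβ0 (by positivity)
      linarith
    have h5 : (2 : ℝ) ^ m * (ε₁ / (2 * 2 ^ m)) = ε₁ / 2 := by field_simp
    linarith
  have h3 : (1 + 16 * (m : ℝ) * (q : ℝ) * β) ^ m ≤ 2 ^ m := by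
    apply pow_le_pow_left₀ (by positivity); linarith
  have h4 : (m : ℝ) * (2 * γ ^ v) ^ m * (1 + 16 * (m : ℝ) * (q : ℝ) * β) ^ m * √Y ≤
      m * (2 * γ ^ v) ^ m * 2 ^ m * √Y := by
    apply mul_le_mul_of_nonneg_right _ (Real.sqrt_nonneg _)
    apply mul_le_mul_of_nonneg_left h3
    positivity
  have h5 : (m : ℝ) * (2 * γ ^ v) ^ m * 2 ^ m * √Y ≤ ε₁ / 2 := by
    apply le_of_sq_le_sq _ (by positivity)
    have h6 : ((m : ℝ) * (2 * γ ^ v) ^ m * 2 ^ m * √Y) ^ 2 =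
        m ^ 2 * 4 ^ m * ((2 * γ ^ v) ^ (2 * m) * Y) := by
      have h7 : (4 : ℝ) ^ m = (2 ^ m) ^ 2 := by
        rw [← pow_mul, mul_comm m 2, pow_mul]; norm_num
      rw [mul_pow, mul_pow, mul_pow, Real.sq_sqrt hY, h7, ← pow_mul (2 * γ ^ v), mul_comm m 2]
      ring
    rw [h6]
    calc (m : ℝ) ^ 2 * 4 ^ m * ((2 * γ ^ v) ^ (2 * m) * Y) ≤ m ^ 2 * 4 ^ m * (4 * τ) := by
          apply mul_le_mul_of_nonneg_left hYmain; positivity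
      _ = (ε₁ / 2) ^ 2 := by
          rw [hτ]; field_simp; ring
  linarith

private lemma t39_gv (γ : ℝ) (A v : ℕ) (hγ : 1 < γ) (hA : 2 * γ ≤ (2 : ℝ) ^ A) (hv1 : 1 ≤ v) :
    2 * γ ^ v ≤ (2 : ℝ) ^ (A * v) := by
  obtain ⟨w, hw⟩ : ∃ w, v = w + 1 := ⟨v - 1, by omega⟩
  rw [hw, pow_succ, Nat.mul_add, pow_add, mul_one, pow_mul]
  have h3 : γ ^ w ≤ ((2 : ℝ) ^ A) ^ w := by
    apply pow_le_pow_left₀ (by linarith)
    linarith
  calc 2 * (γ ^ w * γ) = γ ^ w * (2 * γ) := by ring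
    _ ≤ ((2 : ℝ) ^ A) ^ w * (2 : ℝ) ^ A := by
        apply mul_le_mul h3 hA (by linarith) (by positivity)

/-- R15. The parameters. -/
theorem params {σ γ : ℝ} (h0 : 0 < σ) (h1 : σ < 1) (hσγ : σ * γ = 1) (m q : ℕ) (hm : 1 ≤ m)
    (hq : 1 ≤ q) {ε₁ : ℝ} (hε : 0 < ε₁) :
    ∃ κ₀ : ℝ, 0 < κ₀ ∧ ∀ κ : ℝ, 0 < κ → κ ≤ κ₀ → ∃ N₀ : ℕ, ∀ N : ℕ, N₀ ≤ N →
      ∃ (L : ℕ) (β ζ : ℝ), 0 < β ∧ 0 ≤ ζ ∧ 2 * ⌊κ * √N⌋₊ ≤ N ∧ 1 ≤ N ∧
        2 * γ * (⌊κ * √N⌋₊ : ℝ) ^ 2 ≤ N - ⌊κ * √N⌋₊ ∧ 2 * ⌊κ * √N⌋₊ + 1 ≤ L ∧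
        2 * L ≤ N - ⌊κ * √N⌋₊ ∧
        (∀ t ∈ Ico 1 L, ∃ r : ℕ, 1 ≤ r ∧ 2 * γ ^ ⌊κ * √N⌋₊ ≤ (2 : ℝ) ^ (t * r) ∧
          4 * (256 * q * r * (t + 2 * ⌊κ * √N⌋₊ + 1) / ((N : ℝ) - ⌊κ * √N⌋₊)) ^ t ≤
            (β ^ 2) ^ t) ∧
        ((N + 1 : ℝ) ^ 2 * (2 * (1 / 2) ^ L + 2 * σ ^ (N / 128) *
          (N + 1 : ℝ) ^ (2 * ⌊κ * √N⌋₊)) * (2 * γ ^ ⌊κ * √N⌋₊) ≤ ζ ^ 2) ∧
        2 * (8 * (m : ℝ) * (q : ℝ)) * β ≤ 1 ∧
        ((1 + 16 * (m : ℝ) * (q : ℝ) * β) ^ m - 1) +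
          m * (2 * γ ^ ⌊κ * √N⌋₊) ^ m * (1 + 16 * (m : ℝ) * (q : ℝ) * β) ^ m * ζ ≤ ε₁ := by
  have hγ : 1 < γ := by
    by_contra hcon
    push Not at hcon
    nlinarith
  have hγ0 : 0 < γ := by linarith
  have hm' : (1 : ℝ) ≤ m := by exact_mod_cast hm
  have hq' : (1 : ℝ) ≤ q := by exact_mod_cast hq
  obtain ⟨A, hA⟩ : ∃ A : ℕ, 2 * γ ≤ (2 : ℝ) ^ A := by
    obtain ⟨A, hA⟩ := pow_unbounded_of_one_lt (2 * γ) (by norm_num : (1 : ℝ) < 2)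
    exact ⟨A, hA.le⟩
  obtain ⟨B, hB⟩ : ∃ B : ℕ, B = A * (2 * m + 1) + 4 := ⟨_, rfl⟩
  obtain ⟨K1, hK1⟩ : ∃ K1 : ℝ, K1 = 4 * A + B + 3 := ⟨_, rfl⟩
  have hK1pos : 0 < K1 := by rw [hK1]; positivity
  obtain ⟨W, hW⟩ : ∃ W : ℝ, W = √(2048 * q * K1) := ⟨_, rfl⟩
  have hWpos : 0 < W := by rw [hW]; exact Real.sqrt_pos.2 (by positivity)
  obtain ⟨b0, hb0⟩ : ∃ b0 : ℝ, b0 = min 1 (ε₁ / (2 * 2 ^ m)) / (16 * m * q) := ⟨_, rfl⟩
  have hb0pos : 0 < b0 := by rw [hb0]; positivity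
  obtain ⟨s, hs⟩ : ∃ s : ℝ, s = -Real.log σ := ⟨_, rfl⟩
  have hspos : 0 < s := by
    rw [hs]; have := Real.log_neg h0 h1; linarith
  obtain ⟨τ, hτ⟩ : ∃ τ : ℝ, τ = ε₁ ^ 2 / (16 * m ^ 2 * 4 ^ m) := ⟨_, rfl⟩
  have hτpos : 0 < τ := by rw [hτ]; positivity
  refine ⟨min (b0 / W) (1 / (2 * √γ)), by positivity, ?_⟩
  intro κ hκ hκ0
  have hκ1 : κ ≤ b0 / W := hκ0.trans (min_le_left _ _)
  have hκ2 : κ ≤ 1 / (2 * √γ) := hκ0.trans (min_le_right _ _)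
  clear hκ0
  have hγκ : 2 * γ * κ ^ 2 ≤ 1 / 2 := by
    have hsγ : 0 < √γ := Real.sqrt_pos.2 (by linarith)
    have h2 : κ * (2 * √γ) ≤ 1 := by
      rwa [le_div_iff₀ (by positivity)] at hκ2
    have h3 : (κ * (2 * √γ)) ^ 2 ≤ 1 := by
      apply pow_le_one₀ (by positivity) h2
    have h4 : (κ * (2 * √γ)) ^ 2 = 4 * κ ^ 2 * γ := by
      rw [mul_pow, mul_pow, Real.sq_sqrt (by linarith)]; ring
    rw [h4] at h3
    linarith
  obtain ⟨β, hβ⟩ : ∃ β : ℝ, β = κ * W := ⟨_, rfl⟩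
  have hβpos : 0 < β := by rw [hβ]; positivity
  have hβb : β ≤ b0 := by
    rw [hβ]
    rwa [le_div_iff₀ hWpos] at hκ1
  have hβx : 16 * (m : ℝ) * q * β ≤ min 1 (ε₁ / (2 * 2 ^ m)) := by
    have h2 : 16 * (m : ℝ) * q * b0 = min 1 (ε₁ / (2 * 2 ^ m)) := by
      rw [hb0]
      exact mul_div_cancel₀ _ (by positivity)
    rw [← h2]
    apply mul_le_mul_of_nonneg_left hβb; positivity
  have hβ1 : 16 * (m : ℝ) * q * β ≤ 1 := hβx.trans (min_le_left _ _)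
  have hβ2 : 16 * (m : ℝ) * q * β ≤ ε₁ / (2 * 2 ^ m) := hβx.trans (min_le_right _ _)
  have hβ0 : 0 ≤ 16 * (m : ℝ) * q * β := by positivity
  clear hβx hβb hκ1 hκ2
  -- the threshold
  obtain ⟨Z0, hZ0⟩ : ∃ Z0 : ℝ, Z0 = 1 + 1 / κ + (2 * B + 1) * κ + (10 + |Real.log τ|) / (2 * κ) +
    128 * (8 * κ + 8 + A * (2 * m + 1) * κ + s + |Real.log τ|) / s := ⟨_, rfl⟩
  refine ⟨⌈Z0 ^ 4⌉₊, ?_⟩
  intro N hN
  have hN' : Z0 ^ 4 ≤ N := (Nat.le_ceil _).trans (by exact_mod_cast hN)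
  have hp1 : 0 ≤ 1 / κ := by positivity
  have hp2 : 0 ≤ (2 * (B : ℝ) + 1) * κ := by positivity
  have hp3 : 0 ≤ (10 + |Real.log τ|) / (2 * κ) := by positivity
  have hp4 : 0 ≤ 128 * (8 * κ + 8 + A * (2 * m + 1) * κ + s + |Real.log τ|) / s := by positivity
  obtain ⟨z, hz⟩ : ∃ z : ℝ, z = √√(N : ℝ) := ⟨_, rfl⟩
  have hz2 : z ^ 2 = √N := by rw [hz, Real.sq_sqrt (Real.sqrt_nonneg _)]
  have hz4 : z ^ 4 = N := by
    have : z ^ 4 = (z ^ 2) ^ 2 := by ring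
    rw [this, hz2, Real.sq_sqrt (Nat.cast_nonneg _)]
  have hz0 : 0 ≤ z := by rw [hz]; exact Real.sqrt_nonneg _
  have hzZ : Z0 ≤ z := by
    by_contra hcon
    push Not at hcon
    have : z ^ 4 < Z0 ^ 4 := pow_lt_pow_left₀ hcon hz0 (by norm_num)
    rw [hz4] at this
    linarith
  have hz1 : 1 ≤ z := by rw [hZ0] at hzZ; linarith
  have hzκ : 1 / κ ≤ z := by rw [hZ0] at hzZ; linarith
  have hzB : (2 * (B : ℝ) + 1) * κ ≤ z := by rw [hZ0] at hzZ; linarith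
  have hz3 : (10 + |Real.log τ|) / (2 * κ) ≤ z := by rw [hZ0] at hzZ; linarith
  have hz5 : 128 * (8 * κ + 8 + A * (2 * m + 1) * κ + s + |Real.log τ|) / s ≤ z := by
    rw [hZ0] at hzZ; linarith
  clear hp1 hp2 hp3 hp4 hzZ hZ0
  obtain ⟨v, hv⟩ : ∃ v : ℕ, v = ⌊κ * √(N : ℝ)⌋₊ := ⟨_, rfl⟩
  rw [← hv]
  have hvle : (v : ℝ) ≤ κ * z ^ 2 := by
    rw [hz2, hv]; exact Nat.floor_le (by positivity)
  have hvge : κ * z ^ 2 - 1 ≤ v := by
    rw [hz2]; have := (Nat.lt_floor_add_one (κ * √(N : ℝ))).le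
    rw [← hv] at this
    linarith
  have hκz : 1 ≤ κ * z := by
    rw [div_le_iff₀ hκ] at hzκ
    linarith
  have hv1 : 1 ≤ v := by
    rw [hv, Nat.one_le_floor_iff, ← hz2]
    calc (1 : ℝ) ≤ κ * z := hκz
      _ = κ * (z * 1) := by ring
      _ ≤ κ * (z * z) := mul_le_mul_of_nonneg_left (mul_le_mul_of_nonneg_left hz1 hz0) hκ.le
      _ = κ * z ^ 2 := by ring
  have hv1' : (1 : ℝ) ≤ v := by exact_mod_cast hv1
  have hvN : (2 * (B : ℝ) + 1) * v ≤ N := by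
    calc (2 * (B : ℝ) + 1) * v ≤ (2 * (B : ℝ) + 1) * (κ * z ^ 2) := by
          apply mul_le_mul_of_nonneg_left hvle; positivity
      _ = ((2 * (B : ℝ) + 1) * κ) * z ^ 2 := by ring
      _ ≤ z * z ^ 2 := by apply mul_le_mul_of_nonneg_right hzB; positivity
      _ ≤ z ^ 2 * z ^ 2 := by
          apply mul_le_mul_of_nonneg_right _ (by positivity)
          calc z = z * 1 := (mul_one z).symm
            _ ≤ z * z := mul_le_mul_of_nonneg_left hz1 hz0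
            _ = z ^ 2 := by ring
      _ = N := by rw [← hz4]; ring
  have hvNnat : (2 * B + 1) * v ≤ N := by exact_mod_cast hvN
  have hB4 : 4 ≤ B := by omega
  have h2v : 2 * v ≤ N := by
    have : 2 * v ≤ (2 * B + 1) * v := Nat.mul_le_mul_right _ (by omega)
    omega
  have h2v' : 2 * (v : ℝ) ≤ N := by exact_mod_cast h2v
  have hN1 : 1 ≤ N := by omega
  have hNpos : (0 : ℝ) < N := by exact_mod_cast (by omega : 0 < N)
  have hvsq : (v : ℝ) ^ 2 ≤ κ ^ 2 * N := by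
    calc (v : ℝ) ^ 2 ≤ (κ * z ^ 2) ^ 2 := pow_le_pow_left₀ (by positivity) hvle _
      _ = κ ^ 2 * N := by rw [← hz4]; ring
  have hNv : (N : ℝ) / 2 ≤ N - v := by linarith
  have hgv := t39_gv γ A v hγ hA hv1
  have hT1 := t39_T1 κ z τ N v hκ hz1 hz4 hτpos hz3 hvge
  have hT2 := t39_T2 κ z τ s σ N v A m hκ hz1 hz4 hτpos h0 hs hspos hz5 hvle
  have hYm := t39_Y γ σ τ N v A B m hγ h0 hB hgv hT1 hT2
  have hYpos : 0 ≤ (N + 1 : ℝ) ^ 2 * (2 * (1 / 2) ^ (B * v) + 2 * σ ^ (N / 128) *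
          (N + 1 : ℝ) ^ (2 * v)) * (2 * γ ^ v) := by positivity
  refine ⟨B * v, β, √((N + 1 : ℝ) ^ 2 * (2 * (1 / 2) ^ (B * v) + 2 * σ ^ (N / 128) *
          (N + 1 : ℝ) ^ (2 * v)) * (2 * γ ^ v)), hβpos, Real.sqrt_nonneg _, h2v, hN1,
          ?_, ?_, ?_, ?_, ?_, ?_, ?_⟩
  · -- 2 γ v² ≤ N - v
    have h2 : 2 * γ * (v : ℝ) ^ 2 ≤ 2 * γ * (κ ^ 2 * N) := by
      apply mul_le_mul_of_nonneg_left hvsq; linarith
    have h3 : 2 * γ * (κ ^ 2 * N) = (2 * γ * κ ^ 2) * N := by ring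
    have h4 : (2 * γ * κ ^ 2) * N ≤ 1 / 2 * N := mul_le_mul_of_nonneg_right hγκ hNpos.le
    linarith
  · -- 2 v + 1 ≤ L
    have : 4 * v ≤ B * v := Nat.mul_le_mul_right _ hB4
    omega
  · -- 2 L ≤ N - v
    have h2 : 2 * (B * v) + v = (2 * B + 1) * v := by ring
    omega
  · -- low levels
    intro t ht
    rw [mem_Ico] at ht
    obtain ⟨ht1, htL⟩ := ht
    refine ⟨A * v / t + 1, Nat.le_add_left 1 _, ?_, ?_⟩
    · refine hgv.trans ?_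
      apply pow_le_pow_right₀ (by norm_num)
      exact (Nat.lt_mul_div_succ (A * v) (by omega)).le
    · exact t39_low κ W β K1 N v A B t q hK1 hq hβ hW hNpos hv1' hvsq hNv ht1
        (by exact_mod_cast htL.le)
  · -- high levels
    rw [Real.sq_sqrt hYpos]
  · linarith
  · exact t39_fin γ β _ ε₁ τ m q v hm hε hγ0 hYpos hτ hβ0 hβ1 hβ2 hYm

end Pool.Agent.Lib.MP_8d8c46_lc.MC
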