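import Pool.Agent.Lib.MP_8d8c46_lc.Mg.G013

/-! T49 : I14 -/

set_option autoImplicit false
set_option linter.unusedSectionVars false

open scoped Classical
open Finset

namespace Pool.Agent.Lib.MP_8d8c46_lc.MC

open Pool.Agent.Lib.MP_8d8c46_lc.EL
open Pool.Agent.Lib.MP_8d8c46_lc.SA (BV Om)

/-- I14. The advantage of short protocols.
γ = 1/σ > 1. rect_est with ε₁ = 1/32 gives κ₀; κ ≤ κ₀ with γ κ² ≤ 1/128. v = ⌊κ√N⌋. c > 0 with (2√2)^(c√N) ≤ √(γ^v)/32 for N large (v ≥ κ√N - 1). I13: total ≤ 2 (1/32+1/32+1/32) ≤ 1/4. -/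
theorem adv_small {d q : ℕ} [NeZero q] (hd : 1 ≤ d) {σ γ : ℝ} (h0 : 0 < σ) (h1 : σ < 1)
    (hσγ : σ * γ = 1) : ∃ c : ℝ, 0 < c ∧ ∃ N₀ : ℕ, ∀ N : ℕ, N₀ ≤ N →
      ∀ T : Tr (Pl d) (LP N q), (T.depth : ℝ) ≤ c * √N →
        |∑ ω : Om d N q, (if T.run ω then wY σ ω - 1 else 0)| ≤
          (1 / 4) * Fintype.card (Om d N q) := by
  have hγ0 : 0 < γ := by
    rcases lt_trichotomy γ 0 with h | h | h
    · nlinarith
    · rw [h, mul_zero] at hσγ; norm_num at hσγ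
    · exact h
  have hγ1 : 1 < γ := by nlinarith
  obtain ⟨κ₀, hκ₀, hre⟩ := rect_est (d := d) (q := q) hd h0 h1 hσγ (ε₁ := 1 / 32) (by norm_num)
  obtain ⟨κ, hκd⟩ : ∃ κ : ℝ, κ = min κ₀ (1 / (16 * γ)) := ⟨_, rfl⟩
  have hκ : 0 < κ := by rw [hκd]; exact lt_min hκ₀ (by positivity)
  have hκ1 : κ ≤ κ₀ := by rw [hκd]; exact min_le_left _ _
  have hκ2 : κ ≤ 1 / (16 * γ) := by rw [hκd]; exact min_le_right _ _
  have hκ3 : κ * (16 * γ) ≤ 1 := by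
    rw [le_div_iff₀ (by positivity)] at hκ2
    exact hκ2
  have hκ4 : κ ≤ 1 / 16 := by nlinarith
  have hκ5 : γ * κ ^ 2 ≤ 1 / 128 := by
    have : γ * κ ^ 2 = (κ * (16 * γ)) * κ / 16 := by ring
    rw [this]
    nlinarith
  obtain ⟨N₀, hre⟩ := hre κ hκ hκ1
  obtain ⟨ℓ, hℓ⟩ : ∃ ℓ : ℝ, ℓ = Real.log γ := ⟨_, rfl⟩
  obtain ⟨m, hm⟩ : ∃ m : ℝ, m = Real.log (2 * √2) := ⟨_, rfl⟩
  have hℓ0 : 0 < ℓ := by rw [hℓ]; exact Real.log_pos hγ1
  have h22 : (1 : ℝ) < 2 * √2 := by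
    have : (1 : ℝ) ≤ √2 := by
      rw [Real.one_le_sqrt]; norm_num
    linarith
  have hm0 : 0 < m := by rw [hm]; exact Real.log_pos h22
  obtain ⟨X, hX⟩ : ∃ X : ℝ, X = (ℓ / 2 + Real.log 32) * 4 / (κ * ℓ) := ⟨_, rfl⟩
  have hκℓ : 0 < κ * ℓ := mul_pos hκ hℓ0
  refine ⟨κ * ℓ / (4 * m), by positivity, max (max N₀ 1) ⌈X ^ 2⌉₊, fun N hN T hT => ?_⟩
  have hN0 : N₀ ≤ N := (le_max_left _ _).trans ((le_max_left _ _).trans hN)
  have hN1 : 1 ≤ N := (le_max_right _ _).trans ((le_max_left _ _).trans hN)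
  have hNX : X ^ 2 ≤ N := (Nat.le_ceil _).trans (by exact_mod_cast (le_max_right _ _).trans hN)
  have hN1' : (1 : ℝ) ≤ N := by exact_mod_cast hN1
  have hsN : X ≤ √N := Real.le_sqrt_of_sq_le hNX
  have hs1 : (1 : ℝ) ≤ √N := by rw [Real.one_le_sqrt]; exact hN1'
  have hss : √(N : ℝ) * √N = N := Real.mul_self_sqrt (by linarith)
  obtain ⟨v, hv⟩ : ∃ v : ℕ, v = ⌊κ * √N⌋₊ := ⟨_, rfl⟩
  have hv1 : (v : ℝ) ≤ κ * √N := by rw [hv]; exact Nat.floor_le (by positivity)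
  have hv2 : κ * √N - 1 ≤ v := by
    have := Nat.lt_floor_add_one (κ * √N)
    rw [hv]
    linarith
  have hv0 : (0 : ℝ) ≤ v := Nat.cast_nonneg _
  have hvN2 : (v : ℝ) ≤ N / 2 := by nlinarith
  have hvN : v < N := by
    have : (v : ℝ) < N := by linarith
    exact_mod_cast this
  have hadv := advantage (d := d) (q := q) (ε₁ := 1 / 32) h0 h1.le hγ1.le (by norm_num) hvN
    (fun R I hS hz => by
      rw [hv] at hS hz
      exact hre N hN0 R I hS hz) T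
  have hA : γ * (v : ℝ) ^ 2 / (N - v) ≤ 1 / 32 := by
    have h5 : (0 : ℝ) < N - v := by linarith
    rw [div_le_iff₀ h5]
    have h6 : (v : ℝ) ^ 2 ≤ κ ^ 2 * N := by
      calc (v : ℝ) ^ 2 ≤ (κ * √N) ^ 2 := pow_le_pow_left₀ hv0 hv1 2
        _ = κ ^ 2 * (√(N : ℝ) * √N) := by ring
        _ = _ := by rw [hss]
    have h7 : γ * (v : ℝ) ^ 2 ≤ γ * (κ ^ 2 * N) := mul_le_mul_of_nonneg_left h6 hγ0.le
    have h8 : γ * (κ ^ 2 * N) = (γ * κ ^ 2) * N := by ring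
    have h9 : (γ * κ ^ 2) * N ≤ (1 / 128) * N := mul_le_mul_of_nonneg_right hκ5 (by linarith)
    nlinarith
  have hB : (2 * √2) ^ T.depth / √(γ ^ v) ≤ 1 / 32 := by
    have e1 : (2 * √2) ^ T.depth = Real.exp (T.depth * m) := by
      rw [hm, Real.exp_nat_mul, Real.exp_log (by linarith)]
    have e2 : √(γ ^ v) = Real.exp (v * ℓ / 2) := by
      rw [hℓ]
      have e3 : γ ^ v = (Real.exp (v * Real.log γ / 2)) ^ 2 := by
        rw [← Real.exp_nat_mul]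
        have : ((2 : ℕ) : ℝ) * (v * Real.log γ / 2) = v * Real.log γ := by push_cast; ring
        rw [this, Real.exp_nat_mul, Real.exp_log hγ0]
      rw [e3, Real.sqrt_sq (Real.exp_pos _).le]
    rw [e1, e2, ← Real.exp_sub]
    have e4 : (1 / 32 : ℝ) = Real.exp (-Real.log 32) := by
      rw [Real.exp_neg, Real.exp_log (by norm_num)]; norm_num
    rw [e4]
    apply Real.exp_le_exp.2
    have e5 : (T.depth : ℝ) * m ≤ κ * ℓ / 4 * √N := by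
      calc (T.depth : ℝ) * m ≤ (κ * ℓ / (4 * m) * √N) * m :=
            mul_le_mul_of_nonneg_right hT hm0.le
        _ = _ := by field_simp
    have e6 : (κ * √N - 1) * ℓ / 2 ≤ v * ℓ / 2 := by
      have := mul_le_mul_of_nonneg_right hv2 hℓ0.le
      linarith
    have e7 : (ℓ / 2 + Real.log 32) * 4 ≤ κ * ℓ * √N := by
      have e8 : X * (κ * ℓ) = (ℓ / 2 + Real.log 32) * 4 := by
        rw [hX]; field_simp
      rw [← e8, mul_comm]
      exact mul_le_mul_of_nonneg_left hsN hκℓ.le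
    have e9 : (κ * √N - 1) * ℓ / 2 = κ * ℓ * √N / 2 - ℓ / 2 := by ring
    have e10 : κ * ℓ / 4 * √N = κ * ℓ * √N / 4 := by ring
    rw [e9] at e6
    rw [e10] at e5
    linarith
  refine hadv.trans (mul_le_mul_of_nonneg_right ?_ (Nat.cast_nonneg _))
  linarith

end Pool.Agent.Lib.MP_8d8c46_lc.MC
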