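import Pool.Agent.Lib.MP_8d8c46_lc.Mg.G013
import Pool.Agent.Lib.MP_8d8c46_lc.MC.T49

/-! T58 : Z06 -/

set_option autoImplicit false
set_option linter.unusedSectionVars false

open scoped Classical
open Finset

namespace Pool.Agent.Lib.MP_8d8c46_lc.MC

open Pool.Agent.Lib.MP_8d8c46_lc.EL
open Pool.Agent.Lib.MP_8d8c46_lc.SA (BV Om Bg shf shf_symm)

/-- Z06. The main theorem. -/
theorem main {η δ : ℚ} (hδ : 0 < δ) (hδη : δ < η) (hη : η < 1) :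
    ∃ d₀ : ℕ, ∀ d ≥ d₀, ∀ ε : ℚ, 0 < ε → ∃ c : ℝ, 0 < c ∧ ∃ N₀ : ℕ, ∀ N ≥ N₀,
      ∀ (V : Type) [Fintype V], Fintype.card V = 2 * d * δ.den * N →
        ∃ col : Sym2 V → Fin (d * d), ∀ (A : PMF (Protocol (d * d) (Set (Sym2 V)))) (C : ℕ),
          (∀ P ∈ A.support, P.cost ≤ C) → Separates ε η δ d col A →
            c * √(Fintype.card V) ≤ C := by
  obtain ⟨p, hp⟩ : ∃ p : ℕ, (p : ℤ) = δ.num := ⟨δ.num.toNat, Int.toNat_of_nonneg
    (Rat.num_pos.2 hδ).le⟩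
  obtain ⟨q, hq⟩ : ∃ q : ℕ, q = δ.den := ⟨_, rfl⟩
  have hq0 : 0 < q := by rw [hq]; exact δ.den_pos
  haveI : NeZero q := ⟨hq0.ne'⟩
  have hqQ : (0 : ℚ) < q := by exact_mod_cast hq0
  have hδ' : δ = (p : ℚ) / q := by
    rw [hq, eq_div_iff (by exact_mod_cast δ.den_nz), Rat.mul_den_eq_num, ← hp]
    rfl
  have hp1 : 1 ≤ p := by
    have := Rat.num_pos.2 hδ
    omega
  have hpq : p ≤ q := by
    have h3 : (p : ℚ) / q < 1 := by rw [← hδ']; linarith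
    rw [div_lt_one hqQ] at h3
    exact_mod_cast h3.le
  have hη' : (p : ℝ) / q < (η : ℝ) := by
    have h1 : ((δ : ℚ) : ℝ) < η := by exact_mod_cast hδη
    rw [hδ'] at h1
    push_cast at h1
    exact h1
  obtain ⟨κ, hκ⟩ : ∃ κ : ℝ, κ = ((p : ℝ) / q * (η - p / q)) ^ 2 / 68 := ⟨_, rfl⟩
  have hκ0 : 0 < κ := by
    have h1 : (0 : ℝ) < p := by exact_mod_cast hp1
    have h2 : (0 : ℝ) < q := by exact_mod_cast hq0
    have h3 : 0 < (η : ℝ) - p / q := by linarith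
    rw [hκ]; positivity
  obtain ⟨d₀, hd₀⟩ := exists_nat_ge ((2 * (q : ℝ) + 1) / κ)
  refine ⟨max d₀ 1, fun d hd ε hε => ?_⟩
  have hd1 : 1 ≤ d := (le_max_right _ _).trans hd
  have hdκ : 2 * (q : ℝ) + 1 ≤ d * κ := by
    have h1 : (d₀ : ℝ) ≤ d := by exact_mod_cast (le_max_left _ _).trans hd
    rw [div_le_iff₀ hκ0] at hd₀
    exact hd₀.trans (mul_le_mul_of_nonneg_right h1 hκ0.le)
  obtain ⟨e, he⟩ : ∃ e : ℚ, e = min ε 1 / 100 := ⟨_, rfl⟩
  have he0 : 0 < e := by rw [he]; positivity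
  have he1 : e ≤ 1 / 100 := by
    rw [he]; linarith [min_le_right ε 1]
  have he2 : e ≤ ε / 100 := by
    rw [he]; linarith [min_le_left ε 1]
  have he0' : (0 : ℝ) < e := by exact_mod_cast he0
  have he1' : (e : ℝ) ≤ 1 / 100 := by
    have : ((e : ℚ) : ℝ) ≤ ((1 / 100 : ℚ) : ℝ) := by exact_mod_cast he1
    push_cast at this
    exact this
  have he2' : (e : ℝ) ≤ ε / 100 := by
    have : ((e : ℚ) : ℝ) ≤ ((ε / 100 : ℚ) : ℝ) := by exact_mod_cast he2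
    push_cast at this
    exact this
  obtain ⟨σ, hσ⟩ : ∃ σ : ℝ, σ = 1 - e := ⟨_, rfl⟩
  have h0 : 0 < σ := by rw [hσ]; linarith
  have h1 : σ < 1 := by rw [hσ]; linarith
  have hσ' : 1 - σ ≤ ε / 100 := by rw [hσ]; linarith
  obtain ⟨c₁, hc₁, N₁, hN₁⟩ := adv_small (d := d) (q := q) hd1 h0 h1
    (mul_inv_cancel₀ h0.ne')
  have hdq : (0 : ℝ) < 2 * d * q := by
    have h2 : (0 : ℝ) < q := by exact_mod_cast hq0
    have h3 : (0 : ℝ) < d := by exact_mod_cast hd1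
    positivity
  refine ⟨c₁ / √(2 * d * q), div_pos hc₁ (Real.sqrt_pos.2 hdq), max N₁ 5, ?_⟩
  intro N hN V _ hV
  rw [← hq] at hV
  have hN5 : 5 ≤ N := (le_max_right _ _).trans hN
  have hcard : Fintype.card V = Fintype.card (BV d N × ZMod q) := by
    rw [hV, Fintype.card_prod, Fintype.card_prod, Fintype.card_prod, Fintype.card_bool,
      Fintype.card_fin, Fintype.card_fin, ZMod.card]
    ring
  obtain ⟨φ⟩ := Fintype.card_eq.1 hcard
  refine ⟨colV hd1 φ, fun A C hA hsep => ?_⟩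
  by_contra hcon
  push Not at hcon
  have hs : c₁ / √(2 * d * q) * √(Fintype.card V) = c₁ * √N := by
    rw [hV]
    push_cast
    rw [Real.sqrt_mul hdq.le]
    have : √(2 * (d : ℝ) * q) ≠ 0 := (Real.sqrt_pos.2 hdq).ne'
    field_simp
  rw [hs] at hcon
  rw [hδ'] at hsep
  refine no_short hp1 hpq hd1 hN5 hε hη' (by rw [← hκ]; exact hdκ) h0 h1.le hσ' φ A hA hsep ?_
  intro T hT
  refine hN₁ N ((le_max_left _ _).trans hN) T ?_
  have : (T.depth : ℝ) ≤ C := by exact_mod_cast hT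
  linarith

end Pool.Agent.Lib.MP_8d8c46_lc.MC
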